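import Mathlib

set_option maxHeartbeats 4000000

namespace Pool.Agent.Results.MP_036d25_co.ConnectedHalf

/-- `S` induces a 2-regular subgraph: every vertex of `S` has exactly two neighbours in `S` -/
def InducesTwoRegular {V : Type} (G : SimpleGraph V) (S : Set V) : Prop :=
  ∀ v ∈ S, (G.neighborSet v ∩ S).ncard = 2

/-- coded local condition -/
def ok (c p q r : ℕ) : Bool := c == 0 || p + q + r == 2

def vals : List ℕ := [0,1]

theorem block : ∀ y ∈ vals, ∀ x1 ∈ vals, ∀ x6 ∈ vals, ∀ x13 ∈ vals, ok x1 y x6 x13 = true →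
    ∀ x4 ∈ vals, ∀ x8 ∈ vals, ok x6 x1 x4 x8 = true →
    ∀ x2 ∈ vals, ∀ x11 ∈ vals, ok x13 x1 x2 x11 = true →
    ∀ x7 ∈ vals, ∀ x12 ∈ vals, ok x8 x6 x7 x12 = true →
    ∀ x9 ∈ vals, ok x4 x6 x9 x12 = true →
    ∀ x5 ∈ vals, ok x12 x4 x5 x8 = true →
    ∀ x10 ∈ vals, ok x2 x5 x10 x13 = true → ok x10 x2 x7 x9 = true → ok x5 x2 x11 x12 = true →
    ∀ x3 ∈ vals, ok x9 x3 x4 x10 = true → ok x7 x3 x8 x10 = true →
    ok x11 x3 x5 x13 = true → ok x3 x7 x9 x11 = true →
    y+x1+x2+x3+x4+x5+x6+x7+x8+x9+x10+x11+x12+x13 ≤ 7 := by decide +kernel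

def adjB (a b : Fin 14) : Bool :=
  [(0,1),(1,13),(1,6),(2,10),(2,13),(2,5),(3,9),(3,11),(3,7),(4,9),(4,12),(4,6),(5,12),(5,11),(6,8),(7,10),(7,8),(8,12),(9,10),(11,13)].contains (a.val,b.val) ||
  [(0,1),(1,13),(1,6),(2,10),(2,13),(2,5),(3,9),(3,11),(3,7),(4,9),(4,12),(4,6),(5,12),(5,11),(6,8),(7,10),(7,8),(8,12),(9,10),(11,13)].contains (b.val,a.val)

theorem adjB_symm : ∀ a b : Fin 14, adjB a b = adjB b a := by decide
theorem adjB_irr : ∀ a : Fin 14, adjB a a = false := by decide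

/-- the ring of `k` vertices `(i,0)`, a pendant block with 13 vertices at each of them -/
def GR (k : ℕ) : SimpleGraph (ZMod k × Fin 14) where
  Adj u v := (u.1 = v.1 ∧ adjB u.2 v.2 = true) ∨
    (u.1 ≠ v.1 ∧ u.2 = 0 ∧ v.2 = 0 ∧ (v.1 = u.1 + 1 ∨ u.1 = v.1 + 1))
  symm := ⟨by
    rintro u v (⟨h1, h2⟩ | ⟨h0, h1, h2, h3⟩)
    · exact Or.inl ⟨h1.symm, by rw [adjB_symm]; exact h2⟩
    · exact Or.inr ⟨h0.symm, h2, h1, h3.symm⟩⟩
  loopless := ⟨by
    rintro u (⟨h1, h2⟩ | ⟨h0, h1⟩)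
    · rw [adjB_irr] at h2; exact absurd h2 (by decide)
    · exact h0 rfl⟩

theorem one_ne (k : ℕ) (hk : 3 ≤ k) : (1 : ZMod k) ≠ 0 := by
  have : Fact (1 < k) := ⟨by omega⟩
  exact one_ne_zero

theorem two_ne (k : ℕ) (hk : 3 ≤ k) : (2 : ZMod k) ≠ 0 := by
  intro h
  have h2 : ((2 : ℕ) : ZMod k) = 0 := by exact_mod_cast h
  rw [ZMod.natCast_eq_zero_iff] at h2
  have := Nat.le_of_dvd (by norm_num) h2
  omega

/-- the neighbours inside a block -/
def nb (a : Fin 14) : Fin 14 × Fin 14 × Fin 14 :=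
  match a with
  | 0 => (1, 1, 1)
  | 1 => (0, 6, 13)
  | 2 => (5, 10, 13)
  | 3 => (7, 9, 11)
  | 4 => (6, 9, 12)
  | 5 => (2, 11, 12)
  | 6 => (1, 4, 8)
  | 7 => (3, 8, 10)
  | 8 => (6, 7, 12)
  | 9 => (3, 4, 10)
  | 10 => (2, 7, 9)
  | 11 => (3, 5, 13)
  | 12 => (4, 5, 8)
  | 13 => (1, 2, 11)

theorem nb_spec : ∀ a b : Fin 14, adjB a b = true ↔ (b = (nb a).1 ∨ b = (nb a).2.1 ∨ b = (nb a).2.2) := by
  decide

theorem nb_ne : ∀ a : Fin 14, a ≠ 0 → (nb a).1 ≠ (nb a).2.1 ∧ (nb a).1 ≠ (nb a).2.2 ∧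
    (nb a).2.1 ≠ (nb a).2.2 := by
  decide

theorem nbset_pos (k : ℕ) (i : ZMod k) (a : Fin 14) (ha : a ≠ 0) :
    (GR k).neighborSet (i, a) = {(i, (nb a).1), (i, (nb a).2.1), (i, (nb a).2.2)} := by
  ext ⟨j, b⟩
  simp only [SimpleGraph.mem_neighborSet, GR, Set.mem_insert_iff, Set.mem_singleton_iff,
    Prod.mk.injEq]
  rw [nb_spec]
  constructor
  · rintro (⟨h1, h2⟩ | ⟨_, h1, _⟩)
    · rcases h2 with h | h | h
      · exact Or.inl ⟨h1.symm, h⟩
      · exact Or.inr (Or.inl ⟨h1.symm, h⟩)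
      · exact Or.inr (Or.inr ⟨h1.symm, h⟩)
    · exact absurd h1 ha
  · rintro (⟨h1, h2⟩ | ⟨h1, h2⟩ | ⟨h1, h2⟩)
    · exact Or.inl ⟨h1.symm, Or.inl h2⟩
    · exact Or.inl ⟨h1.symm, Or.inr (Or.inl h2)⟩
    · exact Or.inl ⟨h1.symm, Or.inr (Or.inr h2)⟩

theorem nbset_zero (k : ℕ) (hk : 3 ≤ k) (i : ZMod k) :
    (GR k).neighborSet (i, 0) = {(i - 1, 0), (i + 1, 0), (i, 1)} := by
  ext ⟨j, b⟩
  simp only [SimpleGraph.mem_neighborSet, GR, Set.mem_insert_iff, Set.mem_singleton_iff,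
    Prod.mk.injEq]
  rw [nb_spec]
  have h1 := one_ne k hk
  constructor
  · rintro (⟨h1, h2⟩ | ⟨_, _, h2, h3⟩)
    · refine Or.inr (Or.inr ⟨h1.symm, ?_⟩)
      simpa [nb] using h2
    · rcases h3 with h3 | h3
      · exact Or.inr (Or.inl ⟨h3, h2⟩)
      · exact Or.inl ⟨by rw [h3]; ring, h2⟩
  · rintro (⟨h2, h3⟩ | ⟨h2, h3⟩ | ⟨h2, h3⟩)
    · refine Or.inr ⟨?_, trivial, h3, Or.inr (by rw [h2]; ring)⟩
      intro h
      apply h1
      rw [h2] at h
      linear_combination h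
    · refine Or.inr ⟨?_, trivial, h3, Or.inl h2⟩
      intro h
      apply h1
      rw [h2] at h
      linear_combination -h
    · refine Or.inl ⟨h2.symm, Or.inl ?_⟩
      rw [h3]; rfl

theorem locV {V : Type} [Fintype V] (G : SimpleGraph V) (S : Set V) (hS : InducesTwoRegular G S)
    (g : V → ℕ) (hg1 : ∀ v ∈ S, g v = 1) (hg0 : ∀ v, v ∉ S → g v = 0)
    (u p q r : V) (hN : G.neighborSet u = {p, q, r}) (h1 : p ≠ q) (h2 : p ≠ r) (h3 : q ≠ r) :
    ok (g u) (g p) (g q) (g r) = true := by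
  classical
  by_cases hu : u ∈ S
  · have h4 := hS u hu
    rw [hN] at h4
    have h5 : (({p, q, r} : Set V) ∩ S) = ↑(({p, q, r} : Finset V).filter (fun x => x ∈ S)) := by
      ext x
      simp
    have h6 : ∀ x, (if x ∈ S then 1 else 0) = g x := by
      intro x
      by_cases hx : x ∈ S
      · rw [if_pos hx, hg1 x hx]
      · rw [if_neg hx, hg0 x hx]
    rw [h5, Set.ncard_coe_finset, Finset.card_filter, Finset.sum_insert (by simp [h1, h2]),
      Finset.sum_insert (by simp [h3]), Finset.sum_singleton, h6, h6, h6] at h4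
    have h7 : g p + g q + g r = 2 := by omega
    simp [ok, h7]
  · simp [ok, hg0 u hu]

theorem conn (k : ℕ) (hk : 3 ≤ k) : (GR k).Connected := by
  have : NeZero k := ⟨by omega⟩
  have hb : ∀ (i : ZMod k) (a b : Fin 14), adjB a b = true → (GR k).Reachable (i, a) (i, b) := by
    intro i a b h
    exact SimpleGraph.Adj.reachable (Or.inl ⟨rfl, h⟩)
  have h0 : ∀ (i : ZMod k) (a : Fin 14), (GR k).Reachable (i, 0) (i, a) := by
    intro i a
    have e1 := hb i 0 1 (by decide)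
    have e13 := e1.trans (hb i 1 13 (by decide))
    have e6 := e1.trans (hb i 1 6 (by decide))
    have e4 := e6.trans (hb i 6 4 (by decide))
    have e8 := e6.trans (hb i 6 8 (by decide))
    have e2 := e13.trans (hb i 13 2 (by decide))
    have e11 := e13.trans (hb i 13 11 (by decide))
    have e10 := e2.trans (hb i 2 10 (by decide))
    have e5 := e2.trans (hb i 2 5 (by decide))
    have e3 := e11.trans (hb i 11 3 (by decide))
    have e7 := e8.trans (hb i 8 7 (by decide))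
    have e12 := e8.trans (hb i 8 12 (by decide))
    have e9 := e4.trans (hb i 4 9 (by decide))
    fin_cases a
    · exact SimpleGraph.Reachable.refl _
    · exact e1
    · exact e2
    · exact e3
    · exact e4
    · exact e5
    · exact e6
    · exact e7
    · exact e8
    · exact e9
    · exact e10
    · exact e11
    · exact e12
    · exact e13
  have hr : ∀ n : ℕ, (GR k).Reachable ((0 : ZMod k), (0 : Fin 14)) ((n : ZMod k), 0) := by
    intro n
    induction n with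
    | zero => simp
    | succ n ih =>
      refine ih.trans ?_
      refine SimpleGraph.Adj.reachable (Or.inr ⟨?_, rfl, rfl, Or.inl (by push_cast; rfl)⟩)
      intro h
      apply one_ne k hk
      push_cast at h
      linear_combination -h
  have hall : ∀ v : ZMod k × Fin 14, (GR k).Reachable ((0 : ZMod k), (0 : Fin 14)) v := by
    rintro ⟨i, a⟩
    have := hr i.val
    rw [ZMod.natCast_zmod_val] at this
    exact this.trans (h0 i a)
  have : Nonempty (ZMod k × Fin 14) := ⟨(0, 0)⟩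
  exact ⟨fun u v => (hall u).symm.trans (hall v)⟩

theorem upper (k : ℕ) (hk : 3 ≤ k) [NeZero k] (S : Set (ZMod k × Fin 14))
    (hS : InducesTwoRegular (GR k) S) : S.ncard ≤ 7 * k := by
  classical
  obtain ⟨g, hg⟩ : ∃ g : ZMod k × Fin 14 → ℕ, g = fun v => if v ∈ S then 1 else 0 := ⟨_, rfl⟩
  have hg1 : ∀ v ∈ S, g v = 1 := by intro v hv; rw [hg]; simp [hv]
  have hg0 : ∀ v, v ∉ S → g v = 0 := by intro v hv; rw [hg]; simp [hv]
  have hmem : ∀ v, g v ∈ vals := by
    intro v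
    by_cases hv : v ∈ S
    · rw [hg1 v hv]; decide
    · rw [hg0 v hv]; decide
  have hloc : ∀ (i : ZMod k) (a : Fin 14), a ≠ 0 →
      ok (g (i, a)) (g (i, (nb a).1)) (g (i, (nb a).2.1)) (g (i, (nb a).2.2)) = true := by
    intro i a ha
    obtain ⟨h1, h2, h3⟩ := nb_ne a ha
    exact locV (GR k) S hS g hg1 hg0 (i, a) _ _ _ (nbset_pos k i a ha)
      (by simpa using h1) (by simpa using h2) (by simpa using h3)
  have hunit : ∀ i : ZMod k, ∑ a : Fin 14, g (i, a) ≤ 7 := by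
    intro i
    have hB := block (g (i,0)) (hmem _) (g (i,1)) (hmem _) (g (i,6)) (hmem _) (g (i,13)) (hmem _)
      (hloc i 1 (by decide)) (g (i,4)) (hmem _) (g (i,8)) (hmem _) (hloc i 6 (by decide))
      (g (i,2)) (hmem _) (g (i,11)) (hmem _) (hloc i 13 (by decide))
      (g (i,7)) (hmem _) (g (i,12)) (hmem _) (hloc i 8 (by decide))
      (g (i,9)) (hmem _) (hloc i 4 (by decide)) (g (i,5)) (hmem _) (hloc i 12 (by decide))
      (g (i,10)) (hmem _) (hloc i 2 (by decide)) (hloc i 10 (by decide)) (hloc i 5 (by decide))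
      (g (i,3)) (hmem _) (hloc i 9 (by decide)) (hloc i 7 (by decide)) (hloc i 11 (by decide))
      (hloc i 3 (by decide))
    have hs : ∑ a : Fin 14, g (i, a) = g (i,0) + g (i,1) + g (i,2) + g (i,3) + g (i,4) + g (i,5) +
        g (i,6) + g (i,7) + g (i,8) + g (i,9) + g (i,10) + g (i,11) + g (i,12) + g (i,13) := by
      simp only [Fin.sum_univ_castSucc, Fin.sum_univ_zero]
      simp only [zero_add]
      rfl
    rw [hs]
    exact hB
  have hsum := Finset.sum_le_sum (fun i (_ : i ∈ (Finset.univ : Finset (ZMod k))) => hunit i)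
  have h7 : ∑ i : ZMod k, 7 = 7 * k := by
    simp [ZMod.card, mul_comm]
  rw [h7] at hsum
  have hprod : ∑ v : ZMod k × Fin 14, g v = ∑ i : ZMod k, ∑ a : Fin 14, g (i, a) :=
    Fintype.sum_prod_type _
  have hcard : S.ncard = ∑ v : ZMod k × Fin 14, g v := by
    have h5 : S = ↑((Finset.univ : Finset (ZMod k × Fin 14)).filter (fun x => x ∈ S)) := by
      ext x
      simp
    rw [hg]
    conv_lhs => rw [h5]
    rw [Set.ncard_coe_finset, Finset.card_filter]
  rw [hcard, hprod]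
  exact hsum

theorem result : ∀ k : ℕ, 3 ≤ k → ∃ (V : Type) (_ : Fintype V) (G : SimpleGraph V),
    Fintype.card V = 14 * k ∧ G.Connected ∧ (∀ v, (G.neighborSet v).ncard = 3) ∧
    ∀ S : Set V, InducesTwoRegular G S → 2 * S.ncard ≤ Fintype.card V := by
  intro k hk
  have : NeZero k := ⟨by omega⟩
  have hdeg : ∀ v, ((GR k).neighborSet v).ncard = 3 := by
    rintro ⟨i, a⟩
    by_cases ha : a = 0
    · subst ha
      rw [nbset_zero k hk]
      have h2 := two_ne k hk
      rw [Set.ncard_eq_three]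
      refine ⟨_, _, _, ?_, ?_, ?_, rfl⟩
      · intro h
        apply h2
        have := congrArg Prod.fst h
        simp only at this
        linear_combination -this
      · intro h
        exact absurd (show (0 : Fin 14) = 1 from congrArg Prod.snd h) (by decide)
      · intro h
        exact absurd (show (0 : Fin 14) = 1 from congrArg Prod.snd h) (by decide)
    · rw [nbset_pos k i a ha]
      obtain ⟨h1, h2, h3⟩ := nb_ne a ha
      rw [Set.ncard_eq_three]
      exact ⟨_, _, _, by simpa using h1, by simpa using h2, by simpa using h3, rfl⟩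
  refine ⟨ZMod k × Fin 14, inferInstance, GR k, ?_, conn k hk, hdeg, ?_⟩
  · simp [ZMod.card, mul_comm]
  · intro S hS
    have h1 := upper k hk S hS
    have hc : Fintype.card (ZMod k × Fin 14) = 14 * k := by
      simp [ZMod.card, mul_comm]
    rw [hc]
    omega

end Pool.Agent.Results.MP_036d25_co.ConnectedHalf
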